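import Pool.Agent.Helper58.DM.Goals

/-!
# Project DM (MP_06d934_gt), packet K_CEN: the centralizer of `𝔨`.
-/

set_option autoImplicit false
set_option linter.unusedSectionVars false

namespace Pool.Agent.Helper62.DM

open Matrix Pool.Agent.Helper58.DH Pool.Agent.Helper58.DM

variable {I : Type} [Fintype I] [DecidableEq I] (F : Frame I)

/-- The diagonal matrix `i d` with an odd real function `d`. -/
noncomputable def Dg (d : I → ℝ) : Matrix I I ℂ := Matrix.diagonal fun i ↦ Complex.I * ((d i : ℝ) : ℂ)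

theorem dg_star (d : I → ℝ) : (Dg d)ᴴ = -(Dg d) := by
  ext i j
  rw [Matrix.conjTranspose_apply, Matrix.neg_apply, Dg, Matrix.diagonal_apply, Matrix.diagonal_apply]
  by_cases h : i = j
  · subst h
    simp
  · rw [if_neg h, if_neg (Ne.symm h)]
    simp

theorem dg_th (d : I → ℝ) (hd : ∀ i, d (F.bar i) = -d i) : Th F (Dg d) := by
  intro i j
  rw [Dg, Matrix.diagonal_apply, Matrix.diagonal_apply]
  by_cases h : i = j
  · subst h
    rw [if_pos rfl, if_pos rfl, hd, F.sg_sq]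
    push_cast
    ring
  · have h2 : F.bar j ≠ F.bar i := by
      intro h3
      exact h (by rw [← F.bar_bar i, ← h3, F.bar_bar])
    rw [if_neg h, if_neg h2, mul_zero]

theorem lie_dg (d : I → ℝ) (Z : Matrix I I ℂ) (i j : I) :
    ⁅Z, Dg d⁆ i j = Complex.I * ((d j - d i : ℝ) : ℂ) * Z i j := by
  rw [Ring.lie_def, Matrix.sub_apply, Dg, Matrix.mul_diagonal, Matrix.diagonal_mul]
  push_cast
  ring

theorem bl_bar_ne {i : I} (h : F.bl i ≠ 4) : F.bl (F.bar i) ≠ F.bl i := by
  rw [F.bl_bar]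
  revert h
  generalize F.bl i = A
  revert A
  decide

theorem bar_ne {i : I} (h : F.bl i ≠ 4) : F.bar i ≠ i := fun h2 => bl_bar_ne F h (by rw [h2])

/-- The generator of `𝔨`. -/
noncomputable def Ge (i j : I) : Matrix I I ℂ := Matrix.of fun a b ↦
  (if a = i ∧ b = j then (1 : ℂ) else 0) - (if a = j ∧ b = i then 1 else 0) -
    ((F.sg i * F.sg j : ℝ) : ℂ) * ((if a = F.bar j ∧ b = F.bar i then 1 else 0) -
      (if a = F.bar i ∧ b = F.bar j then 1 else 0))

theorem ge_star (i j : I) : (Ge F i j)ᴴ = -(Ge F i j) := by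
  ext a b
  rw [Matrix.conjTranspose_apply, Matrix.neg_apply, Ge, Matrix.of_apply, Matrix.of_apply]
  simp only [star_sub, star_mul', RCLike.star_def, Complex.conj_ofReal, apply_ite (starRingEnd ℂ), map_one, map_zero]
  rw [if_congr (and_comm : (b = i ∧ a = j) ↔ _) rfl rfl, if_congr (and_comm : (b = j ∧ a = i) ↔ _) rfl rfl,
    if_congr (and_comm : (b = F.bar j ∧ a = F.bar i) ↔ _) rfl rfl,
    if_congr (and_comm : (b = F.bar i ∧ a = F.bar j) ↔ _) rfl rfl]
  ring

theorem bar_iff (a b : I) : F.bar a = b ↔ a = F.bar b :=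
  ⟨fun h => by rw [← h, F.bar_bar], fun h => by rw [h, F.bar_bar]⟩

theorem ge_th (i j : I) : Th F (Ge F i j) := by
  intro a b
  rw [Ge, Matrix.of_apply, Matrix.of_apply]
  have e1 : (F.bar b = i ∧ F.bar a = j) ↔ (a = F.bar j ∧ b = F.bar i) := by
    rw [bar_iff, bar_iff, and_comm]
  have e2 : (F.bar b = j ∧ F.bar a = i) ↔ (a = F.bar i ∧ b = F.bar j) := by
    rw [bar_iff, bar_iff, and_comm]
  have e3 : (F.bar b = F.bar j ∧ F.bar a = F.bar i) ↔ (a = i ∧ b = j) := by
    rw [bar_iff, bar_iff, F.bar_bar, F.bar_bar, and_comm]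
  have e4 : (F.bar b = F.bar i ∧ F.bar a = F.bar j) ↔ (a = j ∧ b = i) := by
    rw [bar_iff, bar_iff, F.bar_bar, F.bar_bar, and_comm]
  rw [if_congr e1 rfl rfl, if_congr e2 rfl rfl, if_congr e3 rfl rfl, if_congr e4 rfl rfl]
  have hsi := F.sg_sq i
  have hsj := F.sg_sq j
  have hi := F.sg_bar i
  have hj := F.sg_bar j
  have he := F.η_sq
  have f1 : ((F.sg a * F.sg b : ℝ) : ℂ) * (if a = i ∧ b = j then (1 : ℂ) else 0) =
      ((F.sg i * F.sg j : ℝ) : ℂ) * (if a = i ∧ b = j then (1 : ℂ) else 0) := by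
    by_cases h : a = i ∧ b = j
    · rw [h.1, h.2]
    · rw [if_neg h, mul_zero, mul_zero]
  have f2 : ((F.sg a * F.sg b : ℝ) : ℂ) * (if a = j ∧ b = i then (1 : ℂ) else 0) =
      ((F.sg i * F.sg j : ℝ) : ℂ) * (if a = j ∧ b = i then (1 : ℂ) else 0) := by
    by_cases h : a = j ∧ b = i
    · rw [h.1, h.2, mul_comm (F.sg j)]
    · rw [if_neg h, mul_zero, mul_zero]
  have g0 : F.sg (F.bar j) * F.sg (F.bar i) * (F.sg i * F.sg j) = 1 := by
    rw [hi, hj]
    linear_combination (F.sg j * F.sg j * (F.sg i * F.sg i)) * he + (F.sg i * F.sg i) * hsj + hsi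
  have f3 : ((F.sg a * F.sg b : ℝ) : ℂ) * ((F.sg i * F.sg j : ℝ) : ℂ) *
      (if a = F.bar j ∧ b = F.bar i then (1 : ℂ) else 0) = (if a = F.bar j ∧ b = F.bar i then (1 : ℂ) else 0) := by
    by_cases h : a = F.bar j ∧ b = F.bar i
    · rw [h.1, h.2, if_pos ⟨rfl, rfl⟩, ← Complex.ofReal_mul, g0]
      simp
    · rw [if_neg h, mul_zero]
  have f4 : ((F.sg a * F.sg b : ℝ) : ℂ) * ((F.sg i * F.sg j : ℝ) : ℂ) *
      (if a = F.bar i ∧ b = F.bar j then (1 : ℂ) else 0) = (if a = F.bar i ∧ b = F.bar j then (1 : ℂ) else 0) := by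
    by_cases h : a = F.bar i ∧ b = F.bar j
    · rw [h.1, h.2, if_pos ⟨rfl, rfl⟩, ← Complex.ofReal_mul, mul_comm (F.sg (F.bar i)), g0]
      simp
    · rw [if_neg h, mul_zero]
  linear_combination f1 - f2 - f3 + f4

theorem ge_off {i j a b : I} (hij : F.bl i = F.bl j) (h : F.bl a ≠ F.bl b) : Ge F i j a b = 0 := by
  have hb : F.bl (F.bar i) = F.bl (F.bar j) := by rw [F.bl_bar, F.bl_bar, hij]
  have h1 : ¬ (a = i ∧ b = j) := by
    rintro ⟨rfl, rfl⟩
    exact h hij
  have h2 : ¬ (a = j ∧ b = i) := by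
    rintro ⟨rfl, rfl⟩
    exact h hij.symm
  have h3 : ¬ (a = F.bar j ∧ b = F.bar i) := by
    rintro ⟨rfl, rfl⟩
    exact h hb.symm
  have h4 : ¬ (a = F.bar i ∧ b = F.bar j) := by
    rintro ⟨rfl, rfl⟩
    exact h hb
  rw [Ge, Matrix.of_apply, if_neg h1, if_neg h2, if_neg h3, if_neg h4]
  ring

theorem k_cen (hM : M_ENT) : K_CEN := by
  intro I _ _ F hk hW Z hZ hZk
  obtain ⟨hfg, -⟩ := hM I F hk
  obtain ⟨hZs, hZt⟩ := (hfg Z).1 hZ
  have hdk : ∀ d : I → ℝ, (∀ i, d (F.bar i) = -d i) → Dg d ∈ fk F := by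
    intro d hd
    refine ⟨(hfg _).2 ⟨dg_star d, dg_th F d hd⟩, fun i j hij => ?_⟩
    rw [Dg, Matrix.diagonal_apply, if_neg]
    rintro rfl
    exact hij rfl
  have hd0 : ∀ d : I → ℝ, (∀ i, d (F.bar i) = -d i) → ∀ i j, d i ≠ d j → Z i j = 0 := by
    intro d hd i j hij
    have h1 := lie_dg d Z i j
    rw [hZk _ (hdk d hd), Matrix.zero_apply] at h1
    have h2 : Complex.I * ((d j - d i : ℝ) : ℂ) ≠ 0 := by
      refine mul_ne_zero Complex.I_ne_zero ?_
      rw [Ne, Complex.ofReal_eq_zero]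
      exact sub_ne_zero.2 (Ne.symm hij)
    exact (mul_eq_zero.1 h1.symm).resolve_left h2
  -- off-diagonal entries
  have hoff : ∀ a j, F.bl a ≠ 4 → a ≠ j → Z a j = 0 ∧ Z j a = 0 := by
    intro a j ha haj
    have hba := bar_ne F ha
    let d : I → ℝ := fun i => (if i = a then 1 else 0) - (if i = F.bar a then 1 else 0)
    have hd : ∀ i, d (F.bar i) = -d i := by
      intro i
      have e1 : (F.bar i = a) ↔ (i = F.bar a) := bar_iff F i a
      have e2 : (F.bar i = F.bar a) ↔ (i = a) := by rw [bar_iff, F.bar_bar]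
      simp only [d]
      rw [if_congr e1 rfl rfl, if_congr e2 rfl rfl]
      ring
    have hda : d a = 1 := by
      show ((if a = a then (1 : ℝ) else 0) - (if a = F.bar a then 1 else 0)) = 1
      rw [if_pos rfl, if_neg (Ne.symm hba), sub_zero]
    have hdj : d j ≠ 1 := by
      show ((if j = a then (1 : ℝ) else 0) - (if j = F.bar a then 1 else 0)) ≠ 1
      rw [if_neg (Ne.symm haj)]
      split_ifs <;> norm_num
    exact ⟨hd0 d hd a j (by rw [hda]; exact Ne.symm hdj), hd0 d hd j a (by rw [hda]; exact hdj)⟩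
  have hoff2 : ∀ i j, F.bl i ≠ F.bl j → Z i j = 0 := by
    intro i j hij
    have hne : i ≠ j := fun h => hij (by rw [h])
    by_cases hi : F.bl i = 4
    · have hj : F.bl j ≠ 4 := fun h => hij (by rw [hi, h])
      exact (hoff j i hj (Ne.symm hne)).2
    · exact (hoff i j hi hne).1
  have hdiag : ∀ i j, F.bl i = F.bl j → F.bl i ≠ 4 → Z i i = Z j j := by
    intro i j hij hi
    by_cases hne : i = j
    · rw [hne]
    have hj : F.bl j ≠ 4 := hij ▸ hi
    have hX : Ge F i j ∈ fk F := ⟨(hfg _).2 ⟨ge_star F i j, ge_th F i j⟩, fun a b h => ge_off F hij h⟩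
    have hXij : Ge F i j i j = 1 := by
      have h1 : ¬ (i = j ∧ j = i) := fun h => hne h.1
      have h2 : ¬ (i = F.bar j ∧ j = F.bar i) := by
        rintro ⟨h, -⟩
        have := bl_bar_ne F hj
        rw [← h] at this
        exact this hij
      have h3 : ¬ (i = F.bar i ∧ j = F.bar j) := fun h => bar_ne F hi h.1.symm
      rw [Ge, Matrix.of_apply, if_pos ⟨rfl, rfl⟩, if_neg h1, if_neg h2, if_neg h3]
      ring
    have h1 : ⁅Z, Ge F i j⁆ i j = (Z i i - Z j j) * Ge F i j i j := by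
      rw [Ring.lie_def, Matrix.sub_apply, Matrix.mul_apply, Matrix.mul_apply,
        Finset.sum_eq_single i (fun c _ hc => by rw [(hoff i c hi (Ne.symm hc)).1, zero_mul])
          (fun h => absurd (Finset.mem_univ _) h),
        Finset.sum_eq_single j (fun c _ hc => by rw [(hoff j c hj (Ne.symm hc)).2, mul_zero])
          (fun h => absurd (Finset.mem_univ _) h)]
      ring
    rw [hZk _ hX, Matrix.zero_apply, hXij, mul_one] at h1
    exact sub_eq_zero.1 h1.symm
  have him : ∀ i, Z i i = Complex.I * (((Z i i).im : ℝ) : ℂ) := by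
    intro i
    have h1 : star (Z i i) = -Z i i := by
      have := congrFun (congrFun hZs i) i
      rwa [Matrix.conjTranspose_apply, Matrix.neg_apply] at this
    have h2 : (Z i i).re = 0 := by
      have := congrArg Complex.re h1
      rw [RCLike.star_def, Complex.conj_re, Complex.neg_re] at this
      linarith
    apply Complex.ext
    · simp [h2]
    · simp
  have hbar : ∀ i, Z (F.bar i) (F.bar i) = -Z i i := by
    intro i
    have := hZt i i
    rw [F.sg_sq] at this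
    rw [this]
    push_cast
    ring
  obtain ⟨h, hh⟩ : ∃ h : ℝ, ∀ i, F.bl i = 0 → Z i i = Complex.I * ((h : ℝ) : ℂ) := by
    by_cases hex : ∃ i0, F.bl i0 = 0
    · obtain ⟨i0, hi0⟩ := hex
      refine ⟨(Z i0 i0).im, fun i hi => ?_⟩
      rw [hdiag i i0 (by rw [hi, hi0]) (by rw [hi]; decide), ← him i0]
    · push Not at hex
      exact ⟨0, fun i hi => absurd hi (hex i)⟩
  obtain ⟨l, hl⟩ : ∃ l : ℝ, ∀ i, F.bl i = 2 → Z i i = Complex.I * ((l : ℝ) : ℂ) := by
    by_cases hex : ∃ i0, F.bl i0 = 2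
    · obtain ⟨i0, hi0⟩ := hex
      refine ⟨(Z i0 i0).im, fun i hi => ?_⟩
      rw [hdiag i i0 (by rw [hi, hi0]) (by rw [hi]; decide), ← him i0]
    · push Not at hex
      exact ⟨0, fun i hi => absurd hi (hex i)⟩
  refine ⟨h, l, ?_⟩
  let dz : I → ℝ := fun i => ![h, -h, l, -l, 0] (F.bl i)
  have hZd : Zd F h l = Dg dz := rfl
  have hodd : ∀ i, dz (F.bar i) = -dz i := by
    intro i
    show ![h, -h, l, -l, 0] (F.bl (F.bar i)) = -![h, -h, l, -l, 0] (F.bl i)
    rw [F.bl_bar]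
    generalize F.bl i = A
    fin_cases A <;> simp [bar5]
  obtain ⟨hZd1, hZd2⟩ := hdk dz hodd
  rw [← hZd] at hZd1 hZd2
  obtain ⟨hDs, hDt⟩ := (hfg _).1 hZd1
  have hmem : Z - Zd F h l ∈ fg F := by
    refine (hfg _).2 ⟨?_, ?_⟩
    · rw [Matrix.conjTranspose_sub, hZs, hDs]
      abel
    · intro i j
      rw [Matrix.sub_apply, Matrix.sub_apply, hZt i j, hDt i j]
      ring
  have hsupp : ∀ i j, (Z - Zd F h l) i j ≠ 0 → F.bl i = 4 ∧ F.bl j = 4 := by
    intro i j hij
    by_contra hcon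
    apply hij
    rw [Matrix.sub_apply]
    by_cases hne : i = j
    · subst hne
      have hi : F.bl i ≠ 4 := fun h => hcon ⟨h, h⟩
      have hval : Zd F h l i i = Complex.I * ((![h, -h, l, -l, 0] (F.bl i) : ℝ) : ℂ) := by
        rw [Zd, Matrix.diagonal_apply, if_pos rfl]
      rw [hval]
      have hcases : F.bl i = 0 ∨ F.bl i = 1 ∨ F.bl i = 2 ∨ F.bl i = 3 := by
        revert hi
        generalize F.bl i = A
        revert A
        decide
      rcases hcases with hb | hb | hb | hb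
      · rw [hh i hb, hb]
        simp
      · have h1 := hh (F.bar i) (by rw [F.bl_bar, hb]; rfl)
        rw [hbar] at h1
        rw [hb, ← neg_neg (Z i i), h1]
        simp
      · rw [hl i hb, hb]
        simp
      · have h1 := hl (F.bar i) (by rw [F.bl_bar, hb]; rfl)
        rw [hbar] at h1
        rw [hb, ← neg_neg (Z i i), h1]
        simp
    · have hDij : Zd F h l i j = 0 := by
        rw [Zd, Matrix.diagonal_apply, if_neg hne]
      rw [hDij, sub_zero]
      by_cases hi : F.bl i = 4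
      · have hj : F.bl j ≠ 4 := fun h => hcon ⟨hi, h⟩
        exact (hoff j i hj (Ne.symm hne)).2
      · exact (hoff i j hi hne).1
  have hcomm : ∀ X ∈ fk F, ⁅Z - Zd F h l, X⁆ = 0 := by
    intro X hX
    have hsk : ⁅Z - Zd F h l, X⁆ = ⁅Z, X⁆ + ⁅X, Zd F h l⁆ := by
      rw [Ring.lie_def, Ring.lie_def, Ring.lie_def, sub_mul, mul_sub]
      abel
    rw [hsk, hZk X hX, zero_add]
    ext i j
    rw [hZd, lie_dg, Matrix.zero_apply]
    by_cases hb : F.bl i = F.bl j
    · have hdd : dz j = dz i := by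
        show ![h, -h, l, -l, 0] (F.bl j) = ![h, -h, l, -l, 0] (F.bl i)
        rw [hb]
      rw [hdd, sub_self]
      simp
    · rw [hX.2 i j hb, mul_zero]
  exact sub_eq_zero.1 (hW _ hmem hsupp hcomm)

end Pool.Agent.Helper62.DM
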